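import Pool.Agent.Helper75.Slab.Goals

set_option autoImplicit false

open Set MeasureTheory Filter Topology

namespace Pool.Agent.Helper60.SlabDIV

open Pool.Agent.Helper75.Slab

theorem convex_M : Convex ℝ M := by
  intro x hx y hy a b ha hb hab
  simp only [M, mem_setOf_eq] at *
  simp only [Pi.add_apply, Pi.smul_apply, smul_eq_mul]
  constructor
  · have := mul_nonneg ha hx.1
    have := mul_nonneg hb hy.1
    linarith
  · have := mul_le_mul_of_nonneg_left hx.2 ha
    have := mul_le_mul_of_nonneg_left hy.2 hb
    linarith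

theorem isOpen_O : IsOpen {x : E | 0 < x 2 ∧ x 2 < 1} :=
  (isOpen_lt continuous_const (continuous_apply 2)).inter
    (isOpen_lt (continuous_apply 2) continuous_const)

theorem O_sub : {x : E | 0 < x 2 ∧ x 2 < 1} ⊆ interior M :=
  interior_maximal (fun _ hx => ⟨hx.1.le, hx.2.le⟩) isOpen_O

theorem isClosed_M : IsClosed M :=
  (isClosed_le continuous_const (continuous_apply 2)).inter
    (isClosed_le (continuous_apply 2) continuous_const)

theorem unique_M : UniqueDiffOn ℝ M := by
  refine uniqueDiffOn_convex convex_M ⟨fun _ => 1 / 2, O_sub ⟨?_, ?_⟩⟩ <;> norm_num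

theorem cont_pd (i j : Fin 3) (F : E → E) (hF : ∀ i, ContDiffOn ℝ 1 (fun x => F x i) M) :
    ContinuousOn (fun x => pd j (fun z => F z i) x) M := by
  have h := (hF i).continuousOn_fderivWithin unique_M le_rfl
  exact h.clm_apply continuousOn_const

theorem thm : G_DIV := by
  intro F R hF h0 hw
  obtain ⟨S, hSR, hS1⟩ : ∃ S : ℝ, R < S ∧ 1 < S :=
    ⟨max R 1 + 1, by linarith [le_max_left R 1], by linarith [le_max_right R 1]⟩
  set a : E := ![-S, -S, 0] with ha
  set b : E := ![S, S, 1] with hb
  have a0 : a 0 = -S := rfl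
  have a1 : a 1 = -S := rfl
  have a2 : a 2 = 0 := rfl
  have b0 : b 0 = S := rfl
  have b1 : b 1 = S := rfl
  have b2 : b 2 = 1 := rfl
  have hab : a ≤ b := by
    intro i
    fin_cases i
    · show a 0 ≤ b 0
      rw [a0, b0]; linarith
    · show a 1 ≤ b 1
      rw [a1, b1]; linarith
    · show a 2 ≤ b 2
      rw [a2, b2]; norm_num
  have hBM : Icc a b ⊆ M := fun x hx => ⟨a2 ▸ hx.1 2, b2 ▸ hx.2 2⟩
  have hout : ∀ x ∈ M, x ∉ Icc a b → S < |x 0| ∨ S < |x 1| := by
    intro x hx hnot
    by_contra hcon
    push Not at hcon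
    apply hnot
    have h1 := abs_le.1 hcon.1
    have h2 := abs_le.1 hcon.2
    constructor
    · intro i
      fin_cases i
      · exact h1.1
      · exact h2.1
      · exact hx.1
    · intro i
      fin_cases i
      · exact h1.2
      · exact h2.2
      · exact hx.2
  have hz : ∀ x ∈ M \ Icc a b, ∑ i, pd i (fun z => F z i) x = 0 := by
    intro x hx
    apply Finset.sum_eq_zero
    intro i _
    have hloc : (fun z => F z i) =ᶠ[𝓝[M] x] fun _ => (0 : ℝ) := by
      have hnb : {z : E | S < |z 0| ∨ S < |z 1|} ∈ 𝓝 x := by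
        apply IsOpen.mem_nhds
        · exact (isOpen_lt continuous_const (continuous_apply 0).abs).union
            (isOpen_lt continuous_const (continuous_apply 1).abs)
        · exact hout x hx.1 hx.2
      filter_upwards [mem_nhdsWithin_of_mem_nhds hnb, self_mem_nhdsWithin] with z hz hzM
      have : F z = 0 := h0 z hzM (by rcases hz with h | h; exacts [Or.inl (by linarith), Or.inr (by linarith)])
      simp [this]
    unfold pd
    rw [hloc.fderivWithin_eq (hloc.self_of_nhdsWithin hx.1)]
    simp
  rw [setIntegral_eq_of_subset_of_forall_diff_eq_zero isClosed_M.measurableSet hBM hz]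
  have hcont : ∀ i, ContinuousOn (fun x => F x i) (Icc a b) := fun i =>
    (hF i).continuousOn.mono hBM
  have hint : IntegrableOn (fun x => ∑ i, pd i (fun z => F z i) x) (Icc a b) := by
    apply ContinuousOn.integrableOn_compact isCompact_Icc
    exact continuousOn_finset_sum _ fun i _ => (cont_pd i i F hF).mono hBM
  have key := integral_divergence_of_hasFDerivAt_off_countable' (E := ℝ) (n := 2) a b hab
    (fun i x => F x i) (fun i x => fderivWithin ℝ (fun z => F z i) M x) ∅ countable_empty hcont
    (by
      intro x hx i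
      have hxi : x ∈ interior M := by
        apply O_sub
        have h2 : a 2 < x 2 ∧ x 2 < b 2 := hx.1 2 (mem_univ _)
        rw [a2, b2] at h2
        exact h2
      have hd : DifferentiableWithinAt ℝ (fun z => F z i) M x :=
        (hF i).differentiableOn one_ne_zero x (interior_subset hxi)
      exact hd.hasFDerivWithinAt.hasFDerivAt (mem_interior_iff_mem_nhds.1 hxi)) hint
  refine key.trans ?_
  apply Finset.sum_eq_zero
  intro i _
  have hmem : ∀ x : Fin 2 → ℝ, x ∈ Icc (a ∘ i.succAbove) (b ∘ i.succAbove) →
      ∀ c, a i ≤ c → c ≤ b i → (i.insertNth c x : E) ∈ M := by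
    intro x hx c hc1 hc2
    apply hBM
    constructor
    · intro j
      rcases Fin.eq_self_or_eq_succAbove i j with rfl | ⟨k, rfl⟩
      · rw [Fin.insertNth_apply_same]; exact hc1
      · rw [Fin.insertNth_apply_succAbove]; exact hx.1 k
    · intro j
      rcases Fin.eq_self_or_eq_succAbove i j with rfl | ⟨k, rfl⟩
      · rw [Fin.insertNth_apply_same]; exact hc2
      · rw [Fin.insertNth_apply_succAbove]; exact hx.2 k
  have hfront : ∀ x ∈ Icc (a ∘ i.succAbove) (b ∘ i.succAbove),
      F (i.insertNth (b i) x) i = 0 := by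
    intro x hx
    have hM := hmem x hx (b i) (hab i) le_rfl
    have hv : (i.insertNth (b i) x : E) i = b i := by
      simpa using Fin.insertNth_apply_same (α := fun _ => ℝ) i (b i) x
    fin_cases i
    · have := h0 _ hM (Or.inl (by
        have hv' : ((Fin.insertNth 0 (b 0) x : E)) 0 = S := hv
        show R ≤ |(Fin.insertNth 0 (b 0) x : E) 0|
        rw [hv', abs_of_pos (by linarith)]; exact hSR.le))
      exact congrFun this 0
    · have := h0 _ hM (Or.inr (by
        have hv' : ((Fin.insertNth 1 (b 1) x : E)) 1 = S := hv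
        show R ≤ |(Fin.insertNth 1 (b 1) x : E) 1|
        rw [hv', abs_of_pos (by linarith)]; exact hSR.le))
      exact congrFun this 1
    · exact hw _ hM (Or.inr hv)
  have hback : ∀ x ∈ Icc (a ∘ i.succAbove) (b ∘ i.succAbove),
      F (i.insertNth (a i) x) i = 0 := by
    intro x hx
    have hM := hmem x hx (a i) le_rfl (hab i)
    have hv : (i.insertNth (a i) x : E) i = a i := by
      simpa using Fin.insertNth_apply_same (α := fun _ => ℝ) i (a i) x
    fin_cases i
    · have := h0 _ hM (Or.inl (by
        have hv' : ((Fin.insertNth 0 (a 0) x : E)) 0 = -S := hv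
        show R ≤ |(Fin.insertNth 0 (a 0) x : E) 0|
        rw [hv', abs_neg, abs_of_pos (by linarith)]; exact hSR.le))
      exact congrFun this 0
    · have := h0 _ hM (Or.inr (by
        have hv' : ((Fin.insertNth 1 (a 1) x : E)) 1 = -S := hv
        show R ≤ |(Fin.insertNth 1 (a 1) x : E) 1|
        rw [hv', abs_neg, abs_of_pos (by linarith)]; exact hSR.le))
      exact congrFun this 1
    · exact hw _ hM (Or.inl hv)
  rw [setIntegral_congr_fun measurableSet_Icc hfront, setIntegral_congr_fun measurableSet_Icc hback]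
  simp

end Pool.Agent.Helper60.SlabDIV
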